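import Pool.Agent.Lib.MP_688fd0_co.SQ5.N.Iface

/-!
Rows EXA and WSUM of the board `n3_modules` (helper30): proofs of `ExaNS`, `ExaDS` and `WsumNS`.

The strands are the cosets `(ℤ × D) / ⟨(e, w)⟩`, the rungs join the strand of `(n, d)` with the strand of `(n - i, d p⁻¹)`.
-/

set_option autoImplicit false

namespace Pool.Agent.Lib.MP_688fd0_co.SQ5.H30

open Pool.Agent.Lib.MP_688fd0_co.SQ5.N

section model

variable {D : Type} [Group D]

theorem st_self (e : ℕ) [NeZero e] (w : D) (v : Fin e × D) : stN e w (v.1 : ℤ) v.2 = v := by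
  have h1 : ((v.1 : ℕ) : ℤ) % (e : ℤ) = v.1 := Int.emod_eq_of_lt (by positivity) (by exact_mod_cast v.1.2)
  have h2 : ((v.1 : ℕ) : ℤ) / (e : ℤ) = 0 := Int.ediv_eq_zero_of_lt (by positivity) (by exact_mod_cast v.1.2)
  refine Prod.ext (Fin.ext ?_) ?_
  · show (((v.1 : ℕ) : ℤ) % (e : ℤ)).toNat = v.1
    rw [h1]; rfl
  · show v.2 * w ^ (-(((v.1 : ℕ) : ℤ) / (e : ℤ))) = v.2
    rw [h2, neg_zero, zpow_zero, mul_one]

theorem st_add (e : ℕ) [NeZero e] (w : D) (n m : ℤ) (d : D) : stN e w (n + e * m) (d * w ^ m) = stN e w n d := by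
  have h0 : (e : ℤ) ≠ 0 := by exact_mod_cast NeZero.ne e
  refine Prod.ext (Fin.ext ?_) ?_
  · show ((n + e * m) % (e : ℤ)).toNat = (n % (e : ℤ)).toNat
    rw [Int.add_mul_emod_self_left]
  · show d * w ^ m * w ^ (-((n + e * m) / (e : ℤ))) = d * w ^ (-(n / (e : ℤ)))
    rw [Int.add_mul_ediv_left _ _ h0, mul_assoc, ← zpow_add]
    congr 2
    ring

theorem st_fst (e : ℕ) [NeZero e] (w : D) (n : ℤ) (d : D) : ((stN e w n d).1 : ℤ) = n % (e : ℤ) := by
  have h0 : (e : ℤ) ≠ 0 := by exact_mod_cast NeZero.ne e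
  show (((n % (e : ℤ)).toNat : ℕ) : ℤ) = n % (e : ℤ)
  exact Int.toNat_of_nonneg (Int.emod_nonneg n h0)

theorem st_snd (e : ℕ) [NeZero e] (w : D) (n : ℤ) (d : D) : (stN e w n d).2 = d * w ^ (-(n / (e : ℤ))) := rfl

/-- The rung at `(n, d)`. -/
theorem rung (e : ℕ) [NeZero e] (w p : D) (i k : ℕ) (hk : 0 < k) (hw : w ^ k = 1) (n : ℤ) (d : D) :
    ∃ r : RgN e k D, r.1 = stN e w n d ∧ yN e w p i k r = stN e w (n - i) (d * p⁻¹) ∧
      r.1.2 * w ^ (r.2 : ℕ) = d := by
  have h0 : (e : ℤ) ≠ 0 := by exact_mod_cast NeZero.ne e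
  have hk0 : (k : ℤ) ≠ 0 := by exact_mod_cast hk.ne'
  have hl0 := Int.emod_nonneg (n / (e : ℤ)) hk0
  have hl1 := Int.emod_lt_of_pos (n / (e : ℤ)) (by exact_mod_cast hk : (0 : ℤ) < k)
  have hwz : ∀ m : ℤ, w ^ ((k : ℤ) * m) = 1 := by
    intro m
    rw [zpow_mul, zpow_natCast, hw, one_zpow]
  obtain ⟨l, hl⟩ : ∃ l : ℕ, (l : ℤ) = (n / (e : ℤ)) % (k : ℤ) := ⟨_, Int.toNat_of_nonneg hl0⟩
  have hlk : l < k := by omega
  have hq : (n / (e : ℤ)) = l + k * ((n / (e : ℤ)) / (k : ℤ)) := by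
    rw [hl, Int.emod_add_mul_ediv]
  have hd : (stN e w n d).2 * w ^ l = d := by
    rw [st_snd, mul_assoc, ← zpow_natCast w l, ← zpow_add]
    have h1 : -(n / (e : ℤ)) + (l : ℤ) = k * (-((n / (e : ℤ)) / (k : ℤ))) := by linarith
    rw [h1, hwz, mul_one]
  refine ⟨(stN e w n d, ⟨l, hlk⟩), rfl, ?_, hd⟩
  show stN e w (((stN e w n d).1 : ℤ) + e * (l : ℤ) - i) ((stN e w n d).2 * w ^ l * p⁻¹) = _
  rw [hd, st_fst]
  have h2 : n - (i : ℤ) = (n % (e : ℤ) + e * (l : ℤ) - i) + e * (k * ((n / (e : ℤ)) / (k : ℤ))) := by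
    have h3 := Int.emod_add_mul_ediv n (e : ℤ)
    have h4 : (e : ℤ) * (n / (e : ℤ)) = e * l + e * (k * ((n / (e : ℤ)) / (k : ℤ))) := by
      rw [← mul_add, ← hq]
    linarith
  rw [h2]
  have h5 := st_add e w (n % (e : ℤ) + e * (l : ℤ) - i) (k * ((n / (e : ℤ)) / (k : ℤ))) (d * p⁻¹)
  rw [hwz, mul_one] at h5
  exact h5.symm

theorem jn_iff (e : ℕ) [NeZero e] (w p : D) (i k : ℕ) (hk : 0 < k) (hw : w ^ k = 1) (v v' : Fin e × D) :
    JnN e w p i k v v' ↔ ∃ (n : ℤ) (d : D), (stN e w n d = v ∧ stN e w (n - i) (d * p⁻¹) = v') ∨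
      (stN e w n d = v' ∧ stN e w (n - i) (d * p⁻¹) = v) := by
  constructor
  · rintro ⟨r, hr⟩
    have h1 : stN e w ((r.1.1 : ℤ) + e * (r.2 : ℤ)) (r.1.2 * w ^ (r.2 : ℕ)) = r.1 := by
      have h2 := st_add e w (r.1.1 : ℤ) (r.2 : ℤ) r.1.2
      rw [zpow_natCast] at h2
      rw [h2, st_self]
    refine ⟨(r.1.1 : ℤ) + e * (r.2 : ℤ), r.1.2 * w ^ (r.2 : ℕ), ?_⟩
    rw [h1]
    exact hr
  · rintro ⟨n, d, h⟩
    obtain ⟨r, h1, h2, -⟩ := rung e w p i k hk hw n d
    refine ⟨r, ?_⟩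
    rw [h1, h2]
    exact h

theorem cmp_step {e : ℕ} [NeZero e] {w p : D} {i k : ℕ} {v₀ : Fin e × D} {A : Fin e × D → Prop}
    (hA : CmpN e w p i k v₀ A) (hk : 0 < k) (hw : w ^ k = 1) (n : ℤ) (d : D) :
    A (stN e w n d) ↔ A (stN e w (n - i) (d * p⁻¹)) := by
  constructor
  · intro h
    exact (hA _).2 (((hA _).1 h).tail ((jn_iff e w p i k hk hw _ _).2 ⟨n, d, Or.inl ⟨rfl, rfl⟩⟩))
  · intro h
    exact (hA _).2 (((hA _).1 h).tail ((jn_iff e w p i k hk hw _ _).2 ⟨n, d, Or.inr ⟨rfl, rfl⟩⟩))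

theorem cmp_self {e : ℕ} [NeZero e] {w p : D} {i k : ℕ} {v₀ : Fin e × D} {A : Fin e × D → Prop}
    (hA : CmpN e w p i k v₀ A) : A v₀ := (hA _).2 Relation.ReflTransGen.refl

theorem pow_one_of_card [Fintype D] {k : ℕ} (h : Nat.card D ∣ k) (x : D) : x ^ k = 1 := by
  obtain ⟨m, rfl⟩ := h
  rw [pow_mul, pow_card_eq_one', one_pow]

/-- A closed walk. -/
theorem walk {e k : ℕ} [NeZero e] {w g : D} (hg : g ^ k = 1) (hw : w ^ k = 1) {A : Fin e × D → Prop} {F : Type} [Field F]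
    (a : ℤ) (G : ℤ → D → F) (c : F) (n : ℤ) (d : D) (h0 : A (stN e w n d))
    (hs : ∀ (m : ℤ) (x : D), (∃ j : ℕ, m = n + j * a ∧ x = d * g ^ j) → A (stN e w m x) →
      A (stN e w (m + a) (x * g)) ∧ G (m + a) (x * g) - G m x = c) :
    G (n + e * (k * a)) d - G n d = (e : F) * k * c := by
  have key : ∀ j : ℕ, A (stN e w (n + j * a) (d * g ^ j)) ∧ G (n + j * a) (d * g ^ j) - G n d = j * c := by
    intro j
    induction j with
    | zero => simpa using h0
    | succ j ih =>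
      obtain ⟨h1, h2⟩ := hs (n + j * a) (d * g ^ j) ⟨j, rfl, rfl⟩ ih.1
      have h3 : n + ((j + 1 : ℕ) : ℤ) * a = n + j * a + a := by push_cast; ring
      have h4 : d * g ^ (j + 1) = d * g ^ j * g := by rw [pow_succ, mul_assoc]
      rw [h3, h4]
      refine ⟨h1, ?_⟩
      have h5 : G (n + j * a + a) (d * g ^ j * g) - G n d =
          (G (n + j * a + a) (d * g ^ j * g) - G (n + j * a) (d * g ^ j)) + (G (n + j * a) (d * g ^ j) - G n d) := by ring
      rw [h5, h2, ih.2]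
      push_cast
      ring
  have h1 := (key (e * k)).2
  have h2 : d * g ^ (e * k) = d := by rw [mul_comm e k, pow_mul, hg, one_pow, mul_one]
  have h3 : n + ((e * k : ℕ) : ℤ) * a = n + e * (k * a) := by push_cast; ring
  rw [h2, h3] at h1
  rw [h1]
  push_cast
  ring

end model

/-- EXA. -/
theorem exaN : ExaNS := by
  intro D _ _ w p i e k _ hi hie hk hD v₀ A hA F _ χ hχ hek τ Φ hΦ
  have hwk := pow_one_of_card hD w
  have hwz : ∀ m : ℤ, w ^ ((k : ℤ) * m) = 1 := by
    intro m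
    rw [zpow_mul, zpow_natCast, hwk, one_zpow]
  have hA0 : A (stN e w (v₀.1 : ℤ) v₀.2) := by rw [st_self]; exact cmp_self hA
  have step : ∀ (n : ℤ) (d : D), A (stN e w n d) →
      Φ (stN e w (n - i) (d * p⁻¹)) - Φ (stN e w n d) = χ d * τ := by
    intro n d h
    obtain ⟨r, h1, h2, h3⟩ := rung e w p i k hk hwk n d
    have h4 := hΦ r (by rw [h1]; exact h)
    rw [h1, h2] at h4
    rw [← h4, ← h1, ← map_pow, ← map_mul, h3]
  have hunit : ∀ d : D, χ d ≠ 0 := by
    intro d h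
    have h1 : χ (d * d⁻¹) = 0 := by rw [map_mul, h, zero_mul]
    rw [mul_inv_cancel, map_one] at h1
    exact one_ne_zero h1
  -- the closed walk
  have fin : ∀ (a : ℤ) (g : D), χ g = 1 →
      (∀ (m : ℤ) (x : D), A (stN e w m x) → A (stN e w (m + a) (x * g)) ∧
        Φ (stN e w (m + a) (x * g)) - Φ (stN e w m x) = χ x * τ) → τ = 0 := by
    intro a g hg hs
    have h1 := walk (e := e) (k := k) (w := w) (g := g) (pow_one_of_card hD g) hwk (A := A) a
      (fun n d => Φ (stN e w n d)) (χ v₀.2 * τ) v₀.1 v₀.2 hA0 (by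
        rintro m x ⟨j, -, hx⟩ hm
        obtain ⟨h1, h2⟩ := hs m x hm
        refine ⟨h1, ?_⟩
        show Φ (stN e w (m + a) (x * g)) - Φ (stN e w m x) = χ v₀.2 * τ
        rw [h2, hx, map_mul, map_pow, hg, one_pow, mul_one])
    have h2 : stN e w ((v₀.1 : ℤ) + e * (k * a)) v₀.2 = stN e w (v₀.1 : ℤ) v₀.2 := by
      have h3 := st_add e w (v₀.1 : ℤ) (k * a) v₀.2
      rwa [hwz, mul_one] at h3
    have h3 : (e : F) * k * (χ v₀.2 * τ) = 0 := by
      rw [← h1]
      show Φ (stN e w ((v₀.1 : ℤ) + e * (k * a)) v₀.2) - Φ (stN e w (v₀.1 : ℤ) v₀.2) = 0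
      rw [h2, sub_self]
    have h4 : (e : F) * k ≠ 0 := by
      have := hek
      push_cast at this
      exact this
    rcases mul_eq_zero.1 h3 with h5 | h5
    · exact absurd h5 h4
    · rcases mul_eq_zero.1 h5 with h6 | h6
      · exact absurd h6 (hunit _)
      · exact h6
  rcases hχ with hp | hq
  · refine fin (-(i : ℤ)) p⁻¹ ?_ ?_
    · have h1 : χ (p * p⁻¹) = 1 := by rw [mul_inv_cancel, map_one]
      rw [map_mul, hp, one_mul] at h1
      exact h1
    · intro m x hm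
      rw [← sub_eq_add_neg]
      exact ⟨(cmp_step hA hk hwk m x).1 hm, step m x hm⟩
  · refine fin (-(i : ℤ) + e) (p⁻¹ * w) ?_ ?_
    · have h1 : χ (p⁻¹ * p) = 1 := by rw [inv_mul_cancel, map_one]
      rw [map_mul] at h1
      rw [map_mul, hq]
      exact h1
    · intro m x hm
      have h1 : stN e w (m + (-(i : ℤ) + e)) (x * (p⁻¹ * w)) = stN e w (m - i) (x * p⁻¹) := by
        have h2 := st_add e w (m - i) 1 (x * p⁻¹)
        rw [mul_one, zpow_one, mul_assoc] at h2
        rw [← h2]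
        congr 1
        ring
      rw [h1]
      exact ⟨(cmp_step hA hk hwk m x).1 hm, step m x hm⟩

/-- EXA, second part. -/
theorem exaD : ExaDS := by
  intro D _ _ w p i e k _ hi hie hk hD v₀ A hA F _ hk0 τ o Φ hΦ
  have he0 : (e : ℤ) ≠ 0 := by exact_mod_cast NeZero.ne e
  have hep : (0 : ℤ) < e := by exact_mod_cast NeZero.pos e
  have hwk := pow_one_of_card hD w
  have hwz : ∀ m : ℤ, w ^ ((k : ℤ) * m) = 1 := by
    intro m
    rw [zpow_mul, zpow_natCast, hwk, one_zpow]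
  have hA0 : A (stN e w (v₀.1 : ℤ) v₀.2) := by rw [st_self]; exact cmp_self hA
  -- the drift is the difference of the levels
  have hdr : ∀ (n : ℤ) (d : D), drN i (stN e w n d) o =
      -o + 2 * o * (((n / (e : ℤ) : ℤ) : F) - (((n - i) / (e : ℤ) : ℤ) : F)) := by
    intro n d
    have h1 : ((stN e w n d).1 : ℤ) = n % (e : ℤ) := st_fst e w n d
    have h2 := Int.emod_add_mul_ediv n (e : ℤ)
    have h3 := Int.emod_nonneg n he0
    have h4 := Int.emod_lt_of_pos n hep
    unfold drN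
    by_cases hc : ((stN e w n d).1 : ℕ) < i
    · rw [if_pos hc]
      have h5 : (n - i) / (e : ℤ) = n / (e : ℤ) - 1 := by
        have h6 : n - i = (n % (e : ℤ) - i + e) + e * (n / (e : ℤ) - 1) := by
          rw [mul_sub]
          linarith
        rw [h6, Int.add_mul_ediv_left _ _ he0]
        have h7 : (n % (e : ℤ) - i + e) / (e : ℤ) = 0 := by
          apply Int.ediv_eq_zero_of_lt
          · have : (i : ℤ) < e := by exact_mod_cast hie
            linarith
          · have : n % (e : ℤ) < i := by rw [← h1]; exact_mod_cast hc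
            linarith
        rw [h7, zero_add]
      rw [h5]
      push_cast
      ring
    · rw [if_neg hc]
      have h5 : (n - i) / (e : ℤ) = n / (e : ℤ) := by
        have h6 : n - i = (n % (e : ℤ) - i) + e * (n / (e : ℤ)) := by linarith
        rw [h6, Int.add_mul_ediv_left _ _ he0]
        have h7 : (n % (e : ℤ) - i) / (e : ℤ) = 0 := by
          apply Int.ediv_eq_zero_of_lt
          · have : (i : ℤ) ≤ n % (e : ℤ) := by rw [← h1]; exact_mod_cast not_lt.1 hc
            linarith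
          · have : (0 : ℤ) < i := by exact_mod_cast hi
            linarith
        rw [h7, zero_add]
      rw [h5]
      ring
  have step : ∀ (n : ℤ) (d : D), A (stN e w n d) →
      (Φ (stN e w (n - i) (d * p⁻¹)) + 2 * o * (((n - i) / (e : ℤ) : ℤ) : F)) -
        (Φ (stN e w n d) + 2 * o * ((n / (e : ℤ) : ℤ) : F)) = τ - o := by
    intro n d h
    obtain ⟨r, h1, h2, -⟩ := rung e w p i k hk hwk n d
    have h4 := hΦ r (by rw [h1]; exact h)
    rw [h1, h2, hdr] at h4
    linear_combination -h4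
  have h1 := walk (e := e) (k := k) (w := w) (g := p⁻¹) (pow_one_of_card hD _) hwk (A := A) (-(i : ℤ))
    (fun n d => Φ (stN e w n d) + 2 * o * ((n / (e : ℤ) : ℤ) : F)) (τ - o) v₀.1 v₀.2 hA0 (by
      rintro m x - hm
      rw [← sub_eq_add_neg]
      exact ⟨(cmp_step hA hk hwk m x).1 hm, step m x hm⟩)
  have h2 : stN e w ((v₀.1 : ℤ) + e * (k * (-(i : ℤ)))) v₀.2 = stN e w (v₀.1 : ℤ) v₀.2 := by
    have h3 := st_add e w (v₀.1 : ℤ) (k * (-(i : ℤ))) v₀.2
    rwa [hwz, mul_one] at h3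
  have h3 : ((v₀.1 : ℤ) + e * (k * (-(i : ℤ)))) / (e : ℤ) = (v₀.1 : ℤ) / (e : ℤ) + k * (-(i : ℤ)) :=
    Int.add_mul_ediv_left _ _ he0
  have h4 : (Φ (stN e w ((v₀.1 : ℤ) + e * (k * (-(i : ℤ)))) v₀.2) +
      2 * o * ((((v₀.1 : ℤ) + e * (k * (-(i : ℤ)))) / (e : ℤ) : ℤ) : F)) -
      (Φ (stN e w (v₀.1 : ℤ) v₀.2) + 2 * o * (((v₀.1 : ℤ) / (e : ℤ) : ℤ) : F)) = (e : F) * k * (τ - o) := h1
  rw [h2, h3] at h4
  push_cast at h4
  have h5 : (k : F) * ((e : F) * τ + (2 * (i : F) - e) * o) = 0 := by linear_combination -h4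
  exact (mul_eq_zero.1 h5).resolve_left hk0

section wsum

variable {D : Type} [Group D]

/-- The left translations of the strands. -/
def tr (e : ℕ) [NeZero e] (w : D) (a : ℤ) (g : D) (v : Fin e × D) : Fin e × D := stN e w (a + v.1) (g * v.2)

theorem tr_st (e : ℕ) [NeZero e] (w : D) (a : ℤ) (g : D) (n : ℤ) (d : D) :
    tr e w a g (stN e w n d) = stN e w (a + n) (g * d) := by
  show stN e w (a + ((stN e w n d).1 : ℤ)) (g * (stN e w n d).2) = _
  rw [st_fst, st_snd]
  have h1 := st_add e w (a + n) (-(n / (e : ℤ))) (g * d)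
  rw [← h1, mul_assoc]
  congr 1
  have h2 := Int.emod_add_mul_ediv n (e : ℤ)
  linarith

theorem tr_tr (e : ℕ) [NeZero e] (w : D) (a b : ℤ) (g h : D) (v : Fin e × D) :
    tr e w a g (tr e w b h v) = tr e w (a + b) (g * h) v := by
  show tr e w a g (stN e w (b + v.1) (h * v.2)) = stN e w (a + b + v.1) (g * h * v.2)
  rw [tr_st, mul_assoc, add_assoc]

theorem tr_one (e : ℕ) [NeZero e] (w : D) (v : Fin e × D) : tr e w 0 1 v = v := by
  show stN e w (0 + v.1) (1 * v.2) = v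
  rw [zero_add, one_mul, st_self]

/-- The translation as a permutation. -/
def trE (e : ℕ) [NeZero e] (w : D) (a : ℤ) (g : D) : Equiv.Perm (Fin e × D) where
  toFun := tr e w a g
  invFun := tr e w (-a) g⁻¹
  left_inv v := by rw [tr_tr, neg_add_cancel, inv_mul_cancel, tr_one]
  right_inv v := by rw [tr_tr, add_neg_cancel, mul_inv_cancel, tr_one]

theorem tr_jn {e : ℕ} [NeZero e] {w p : D} {i k : ℕ} (hk : 0 < k) (hw : w ^ k = 1) (a : ℤ) (g : D) {v v' : Fin e × D}
    (h : JnN e w p i k v v') : JnN e w p i k (tr e w a g v) (tr e w a g v') := by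
  rw [jn_iff e w p i k hk hw] at h ⊢
  obtain ⟨n, d, h⟩ := h
  have h1 : stN e w (a + n - i) (g * d * p⁻¹) = tr e w a g (stN e w (n - i) (d * p⁻¹)) := by
    rw [tr_st, mul_assoc, add_sub_assoc]
  refine ⟨a + n, g * d, ?_⟩
  rw [h1, ← tr_st]
  rcases h with ⟨rfl, rfl⟩ | ⟨rfl, rfl⟩
  · exact Or.inl ⟨rfl, rfl⟩
  · exact Or.inr ⟨rfl, rfl⟩

theorem jn_symm {e : ℕ} [NeZero e] {w p : D} {i k : ℕ} {v v' : Fin e × D}
    (h : JnN e w p i k v v') : JnN e w p i k v' v := by
  obtain ⟨r, h⟩ := h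
  exact ⟨r, h.symm⟩

theorem tr_cmp {e : ℕ} [NeZero e] {w p : D} {i k : ℕ} {v₀ : Fin e × D} {A : Fin e × D → Prop}
    (hA : CmpN e w p i k v₀ A) (hk : 0 < k) (hw : w ^ k = 1) (a : ℤ) (g : D) (h0 : A (tr e w a g v₀))
    (v : Fin e × D) : A (tr e w a g v) ↔ A v := by
  have hsym : ∀ {x y : Fin e × D}, Relation.ReflTransGen (JnN e w p i k) x y →
      Relation.ReflTransGen (JnN e w p i k) y x := by
    intro x y h
    induction h with
    | refl => exact Relation.ReflTransGen.refl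
    | tail _ h2 ih => exact Relation.ReflTransGen.head (jn_symm h2) ih
  have hlift : ∀ (b : ℤ) (h : D) {x y : Fin e × D}, Relation.ReflTransGen (JnN e w p i k) x y →
      Relation.ReflTransGen (JnN e w p i k) (tr e w b h x) (tr e w b h y) := by
    intro b h x y hxy
    exact hxy.lift _ fun _ _ h' => tr_jn hk hw b h h'
  constructor
  · intro h
    -- `v₀ → tr v₀` and `v₀ → tr v`, hence `tr v₀ → tr v`, hence `v₀ → v`
    have h1 := (hsym ((hA _).1 h0)).trans ((hA _).1 h)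
    have h2 := hlift (-a) g⁻¹ h1
    rw [tr_tr, tr_tr, neg_add_cancel, inv_mul_cancel, tr_one, tr_one] at h2
    exact (hA _).2 h2
  · intro h
    exact (hA _).2 (((hA _).1 h0).trans (hlift a g ((hA _).1 h)))

end wsum

/-- WSUM. -/
theorem wsumN : WsumNS := by
  intro D _ _ w p i e k _ hi hie hk hD hgen v₀ A _ hA F _ ω hω hn hsum
  have hwk := pow_one_of_card hD w
  have hωz : ∀ (d : D) (m : ℤ), ω (d * w ^ m) = ω d := by
    intro d m
    induction m using Int.induction_on with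
    | zero => rw [zpow_zero, mul_one]
    | succ m ih => rw [zpow_add_one, ← mul_assoc, hω, ih]
    | pred m ih =>
      rw [← ih, ← hω (d * w ^ (-(m : ℤ) - 1)), mul_assoc, ← zpow_add_one]
      congr 3
      ring
  -- all elements of `D` occur
  have hall : ∀ x : D, ∃ n : ℤ, A (stN e w n (v₀.2 * x)) := by
    intro x
    have hx : x ∈ Subgroup.closure {p, w} := by rw [hgen]; trivial
    induction hx using Subgroup.closure_induction_right with
    | one => exact ⟨v₀.1, by rw [mul_one, st_self]; exact cmp_self hA⟩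
    | mul_right x _ y hy ih =>
      obtain ⟨n, hn⟩ := ih
      rcases hy with rfl | rfl
      · refine ⟨n + i, ?_⟩
        rw [cmp_step hA hk hwk, add_sub_cancel_right, ← mul_assoc, mul_inv_cancel_right]
        exact hn
      · refine ⟨n + e, ?_⟩
        have h1 := st_add e y n 1 (v₀.2 * x)
        rw [mul_one, zpow_one] at h1
        rw [← mul_assoc, h1]
        exact hn
    | mul_inv_cancel x _ y hy ih =>
      obtain ⟨n, hn⟩ := ih
      rcases hy with rfl | rfl
      · refine ⟨n - i, ?_⟩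
        rw [← mul_assoc, ← cmp_step hA hk hwk]
        exact hn
      · refine ⟨n - e, ?_⟩
        have h1 := st_add e y n (-1) (v₀.2 * x)
        rw [mul_neg_one, zpow_neg_one, ← sub_eq_add_neg] at h1
        rw [← mul_assoc, h1]
        exact hn
  -- the sums over the translates
  have hf : ∀ g : D, (∑ v : Fin e × D, if A v then ω (g * v.2) else 0) = ∑ v : Fin e × D, if A v then ω v.2 else 0 := by
    intro g
    obtain ⟨n, hn⟩ := hall (v₀.2⁻¹ * (g * v₀.2))
    rw [mul_inv_cancel_left] at hn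
    have h0 : A (tr e w (n - v₀.1) g v₀) := by
      show A (stN e w (n - v₀.1 + v₀.1) (g * v₀.2))
      rw [sub_add_cancel]
      exact hn
    have h1 := tr_cmp hA hk hwk _ _ h0
    rw [← Equiv.sum_comp (trE e w (n - v₀.1) g) (fun v => if A v then ω v.2 else 0)]
    refine Finset.sum_congr rfl fun v _ => ?_
    have h2 : A (trE e w (n - v₀.1) g v) ↔ A v := h1 v
    have h3 : ω ((trE e w (n - v₀.1) g v).2) = ω (g * v.2) := by
      show ω (g * v.2 * w ^ (-((n - v₀.1 + v.1) / (e : ℤ)))) = ω (g * v.2)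
      exact hωz _ _
    by_cases h : A v
    · rw [if_pos h, if_pos (h2.2 h), h3]
    · rw [if_neg h, if_neg (fun h' => h (h2.1 h'))]
  have hcard : (Fintype.card D : F) * (∑ v : Fin e × D, if A v then ω v.2 else 0) =
      ((Finset.univ.filter A).card : F) * ∑ d, ω d := by
    calc (Fintype.card D : F) * (∑ v : Fin e × D, if A v then ω v.2 else 0)
        = ∑ g : D, ∑ v : Fin e × D, if A v then ω (g * v.2) else 0 := by
          rw [Finset.sum_congr rfl fun g _ => hf g, Finset.sum_const, nsmul_eq_mul, Finset.card_univ]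
      _ = ∑ v : Fin e × D, ∑ g : D, if A v then ω (g * v.2) else 0 := Finset.sum_comm
      _ = ∑ v : Fin e × D, if A v then ∑ d, ω d else 0 := by
          refine Finset.sum_congr rfl fun v _ => ?_
          by_cases h : A v
          · simp only [if_pos h]
            exact Equiv.sum_comp (Equiv.mulRight v.2) ω
          · simp only [if_neg h, Finset.sum_const_zero]
      _ = _ := by rw [← Finset.sum_filter, Finset.sum_const, nsmul_eq_mul]
  intro h0
  rw [h0, mul_zero] at hcard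
  rcases mul_eq_zero.1 hcard.symm with h | h
  · refine hn _ ?_ ?_ h
    · exact Finset.card_pos.2 ⟨v₀, by simp [cmp_self hA]⟩
    · have h1 : (Finset.univ.filter A).card ≤ Fintype.card (Fin e × D) := Finset.card_le_univ _
      have h2 : Fintype.card D ≤ k := by
        rw [← Nat.card_eq_fintype_card]
        exact Nat.le_of_dvd hk hD
      rw [Fintype.card_prod, Fintype.card_fin] at h1
      exact h1.trans (Nat.mul_le_mul_left _ h2)
  · exact hsum h

end Pool.Agent.Lib.MP_688fd0_co.SQ5.H30
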