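import Pool.Agent.Lib.MP_688fd0_co.SQ5.NA.Iface
import Pool.Agent.Lib.MP_688fd0_co.SQ5.H30.ExaW

/-!
Rows EXAT and WSUMA of the board `na_modules` (helper30): proofs of `ExaTS` and `WsumAS`.
-/

set_option autoImplicit false

namespace Pool.Agent.Lib.MP_688fd0_co.SQ5.H30

open Pool.Agent.Lib.MP_688fd0_co.SQ5.N Pool.Agent.Lib.MP_688fd0_co.SQ5.NA

section model

variable {D : Type} [Group D]

theorem clo_step {e : ℕ} [NeZero e] {w p : D} {i k : ℕ} {A : Fin e × D → Prop}
    (hA : ∀ r : RgN e k D, A r.1 ↔ A (yN e w p i k r)) (hk : 0 < k) (hw : w ^ k = 1) (n : ℤ) (d : D) :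
    A (stN e w n d) ↔ A (stN e w (n - i) (d * p⁻¹)) := by
  obtain ⟨r, h1, h2, -⟩ := rung e w p i k hk hw n d
  rw [← h1, ← h2]
  exact hA r

/-- The components for a symmetric relation which is kept by the translations. -/
theorem tr_gen {e : ℕ} [NeZero e] {w : D} {J : Fin e × D → Fin e × D → Prop} (hs : ∀ v v', J v v' → J v' v)
    (hJ : ∀ (a : ℤ) (g : D) (v v' : Fin e × D), J v v' → J (tr e w a g v) (tr e w a g v'))
    {v₀ : Fin e × D} {A : Fin e × D → Prop} (hA : ∀ v, A v ↔ Relation.ReflTransGen J v₀ v) (a : ℤ) (g : D)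
    (h0 : A (tr e w a g v₀)) (v : Fin e × D) : A (tr e w a g v) ↔ A v := by
  have hsym : ∀ {x y : Fin e × D}, Relation.ReflTransGen J x y → Relation.ReflTransGen J y x := by
    intro x y h
    induction h with
    | refl => exact Relation.ReflTransGen.refl
    | tail _ h2 ih => exact Relation.ReflTransGen.head (hs _ _ h2) ih
  have hlift : ∀ (b : ℤ) (h : D) {x y : Fin e × D}, Relation.ReflTransGen J x y →
      Relation.ReflTransGen J (tr e w b h x) (tr e w b h y) := by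
    intro b h x y hxy
    exact hxy.lift _ fun _ _ h' => hJ b h _ _ h'
  constructor
  · intro h
    have h1 := (hsym ((hA _).1 h0)).trans ((hA _).1 h)
    have h2 := hlift (-a) g⁻¹ h1
    rw [tr_tr, tr_tr, neg_add_cancel, inv_mul_cancel, tr_one, tr_one] at h2
    exact (hA _).2 h2
  · intro h
    exact (hA _).2 (((hA _).1 h0).trans (hlift a g ((hA _).1 h)))

end model

/-- EXAT. -/
theorem exaT : ExaTS := by
  intro D _ _ w p p' i i' e k _ hi hie hi' hie' hk hD v₀ A hA0 hA hA' F _ χ hw hpp hek τ τ' Φ hΦ hΦ'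
  have hwk := pow_one_of_card hD w
  have hwz : ∀ m : ℤ, w ^ ((k : ℤ) * m) = 1 := by
    intro m
    rw [zpow_mul, zpow_natCast, hwk, one_zpow]
  have hunit : ∀ d : D, χ d ≠ 0 := by
    intro d h
    have h1 : χ (d * d⁻¹) = 0 := by rw [map_mul, h, zero_mul]
    rw [mul_inv_cancel, map_one] at h1
    exact one_ne_zero h1
  -- a step along a rung of one of the letters
  have step : ∀ (q : D) (ι : ℕ) (τ₀ : F),
      (∀ r : RgN e k D, A r.1 → χ r.1.2 * τ₀ = Φ (yN e w q ι k r) - Φ r.1) →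
      ∀ (n : ℤ) (d : D), A (stN e w n d) →
        Φ (stN e w (n - ι) (d * q⁻¹)) - Φ (stN e w n d) = χ d * τ₀ := by
    intro q ι τ₀ h n d hn
    obtain ⟨r, h1, h2, h3⟩ := rung e w q ι k hk hwk n d
    have h4 := h r (by rw [h1]; exact hn)
    rw [h1, h2] at h4
    rw [← h4]
    congr 1
    have h5 : χ (r.1.2 * w ^ (r.2 : ℕ)) = χ d := by rw [h3]
    rw [map_mul, map_pow, hw, one_pow, mul_one] at h5
    rw [← h1]
    exact h5
  have h1 := walk (e := e) (k := k) (w := w) (g := p'⁻¹ * p) (pow_one_of_card hD _) hwk (A := A) ((i : ℤ) - i')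
    (fun n d => Φ (stN e w n d)) (χ v₀.2 * (τ' - τ)) v₀.1 v₀.2 (by rw [st_self]; exact hA0) (by
      rintro m x ⟨j, -, hx⟩ hm
      have hm1 := (clo_step hA' hk hwk m x).1 hm
      have e1 : stN e w (m + ((i : ℤ) - i')) (x * (p'⁻¹ * p)) =
          stN e w (m - i' + i) (x * p'⁻¹ * p) := by
        rw [mul_assoc]
        congr 1
        ring
      have e2 : stN e w (m - i' + i - i) (x * p'⁻¹ * p * p⁻¹) = stN e w (m - i') (x * p'⁻¹) := by
        rw [add_sub_cancel_right, mul_inv_cancel_right]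
      have hm2 : A (stN e w (m - i' + i) (x * p'⁻¹ * p)) := by
        rw [clo_step hA hk hwk, e2]
        exact hm1
      have s1 := step p' i' τ' hΦ' m x hm
      have s2 := step p i τ hΦ (m - i' + i) (x * p'⁻¹ * p) hm2
      rw [e2] at s2
      have hχ : χ (x * p'⁻¹ * p) = χ x := by
        have h5 : χ (p'⁻¹ * p') = 1 := by rw [inv_mul_cancel, map_one]
        rw [map_mul] at h5
        rw [mul_assoc, map_mul, map_mul, hpp, h5, mul_one]
      have hχ0 : χ x = χ v₀.2 := by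
        have h5 : χ (p'⁻¹ * p) = 1 := by
          have h6 : χ (p'⁻¹ * p') = 1 := by rw [inv_mul_cancel, map_one]
          rw [map_mul] at h6
          rw [map_mul, hpp, h6]
        rw [hx, map_mul, map_pow, h5, one_pow, mul_one]
      rw [hχ] at s2
      refine ⟨by rw [e1]; exact hm2, ?_⟩
      show Φ (stN e w (m + ((i : ℤ) - i')) (x * (p'⁻¹ * p))) - Φ (stN e w m x) = χ v₀.2 * (τ' - τ)
      rw [e1, ← hχ0]
      linear_combination s1 - s2)
  have h2 : stN e w ((v₀.1 : ℤ) + e * (k * ((i : ℤ) - i'))) v₀.2 = stN e w (v₀.1 : ℤ) v₀.2 := by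
    have h3 := st_add e w (v₀.1 : ℤ) (k * ((i : ℤ) - i')) v₀.2
    rwa [hwz, mul_one] at h3
  have h3 : (e : F) * k * (χ v₀.2 * (τ' - τ)) = 0 := by
    rw [← h1]
    show Φ (stN e w ((v₀.1 : ℤ) + e * (k * ((i : ℤ) - i'))) v₀.2) - Φ (stN e w (v₀.1 : ℤ) v₀.2) = 0
    rw [h2, sub_self]
  have h4 : (e : F) * k ≠ 0 := by
    have := hek
    push_cast at this
    exact this
  rcases mul_eq_zero.1 h3 with h5 | h5
  · exact absurd h5 h4
  · rcases mul_eq_zero.1 h5 with h6 | h6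
    · exact absurd h6 (hunit _)
    · exact (sub_eq_zero.1 h6).symm

section wsum

variable {σ D : Type} [Group D]

theorem cmpA_step {e : ℕ} [NeZero e] {w : D} {p : σ → D} {i : σ → ℕ} {k : ℕ} {v₀ : Fin e × D}
    {A : Fin e × D → Prop} (hA : CmpA e w p i k v₀ A) (hk : 0 < k) (hw : w ^ k = 1) (s : σ) (n : ℤ) (d : D) :
    A (stN e w n d) ↔ A (stN e w (n - i s) (d * (p s)⁻¹)) := by
  constructor
  · intro h
    exact (hA _).2 (((hA _).1 h).tail ⟨s, (jn_iff e w (p s) (i s) k hk hw _ _).2 ⟨n, d, Or.inl ⟨rfl, rfl⟩⟩⟩)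
  · intro h
    exact (hA _).2 (((hA _).1 h).tail ⟨s, (jn_iff e w (p s) (i s) k hk hw _ _).2 ⟨n, d, Or.inr ⟨rfl, rfl⟩⟩⟩)

theorem tr_cmpA {e : ℕ} [NeZero e] {w : D} {p : σ → D} {i : σ → ℕ} {k : ℕ} {v₀ : Fin e × D}
    {A : Fin e × D → Prop} (hA : CmpA e w p i k v₀ A) (hk : 0 < k) (hw : w ^ k = 1) (a : ℤ) (g : D)
    (h0 : A (tr e w a g v₀)) (v : Fin e × D) : A (tr e w a g v) ↔ A v := by
  refine tr_gen (J := JnA e w p i k) ?_ ?_ hA a g h0 v
  · rintro v v' ⟨s, h⟩
    exact ⟨s, jn_symm h⟩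
  · rintro b g v v' ⟨s, h⟩
    exact ⟨s, tr_jn hk hw b g h⟩

theorem jnA_mem {e : ℕ} [NeZero e] {w : D} {p : σ → D} {i : σ → ℕ} {k : ℕ} (hk : 0 < k) (hw : w ^ k = 1)
    {H : Subgroup D} (hwH : w ∈ H) (hpH : ∀ s, p s ∈ H) {v v' : Fin e × D} (h : JnA e w p i k v v') :
    v.2⁻¹ * v'.2 ∈ H := by
  obtain ⟨s, h⟩ := h
  rw [jn_iff e w (p s) (i s) k hk hw] at h
  obtain ⟨n, d, h⟩ := h
  have key : (stN e w n d).2⁻¹ * (stN e w (n - i s) (d * (p s)⁻¹)).2 ∈ H := by
    rw [st_snd, st_snd]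
    have e1 : (d * w ^ (-(n / (e : ℤ))))⁻¹ * (d * (p s)⁻¹ * w ^ (-((n - i s) / (e : ℤ)))) =
        (w ^ (-(n / (e : ℤ))))⁻¹ * (p s)⁻¹ * w ^ (-((n - i s) / (e : ℤ))) := by group
    rw [e1]
    exact H.mul_mem (H.mul_mem (H.inv_mem (H.zpow_mem hwH _)) (H.inv_mem (hpH s))) (H.zpow_mem hwH _)
  rcases h with ⟨rfl, rfl⟩ | ⟨rfl, rfl⟩
  · exact key
  · have := H.inv_mem key
    rwa [mul_inv_rev, inv_inv] at this

end wsum

/-- WSUMA. -/
theorem wsumA : WsumAS := by
  intro σ D _ _ w p i e k _ hi hie hk hD v₀ A _ hA H _ hH F _ ω hω hn hsum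
  have hwk := pow_one_of_card hD w
  have hwH : w ∈ H := by rw [hH]; exact Subgroup.subset_closure (Set.mem_insert _ _)
  have hpH : ∀ s, p s ∈ H := fun s => by
    rw [hH]; exact Subgroup.subset_closure (Set.mem_insert_of_mem _ ⟨s, rfl⟩)
  have hself : A v₀ := (hA _).2 Relation.ReflTransGen.refl
  have hωz : ∀ (d : D) (m : ℤ), ω (d * w ^ m) = ω d := by
    intro d m
    induction m using Int.induction_on with
    | zero => rw [zpow_zero, mul_one]
    | succ m ih => rw [zpow_add_one, ← mul_assoc, hω, ih]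
    | pred m ih =>
      rw [← ih, ← hω (d * w ^ (-(m : ℤ) - 1)), mul_assoc, ← zpow_add_one]
      congr 3
      ring
  -- the `D`-parts of the component
  have hmem : ∀ v, A v → v₀.2⁻¹ * v.2 ∈ H := by
    intro v hv
    have h1 := (hA v).1 hv
    induction h1 with
    | refl => rw [inv_mul_cancel]; exact H.one_mem
    | @tail x y hx hxy ih =>
      have h2 := jnA_mem hk hwk hwH hpH hxy
      have h3 := H.mul_mem (ih ((hA x).2 hx)) h2
      rwa [mul_assoc, mul_inv_cancel_left] at h3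
  have hall : ∀ x ∈ H, ∃ n : ℤ, A (stN e w n (v₀.2 * x)) := by
    intro x hx
    rw [hH] at hx
    induction hx using Subgroup.closure_induction_right with
    | one => exact ⟨v₀.1, by rw [mul_one, st_self]; exact hself⟩
    | mul_right x _ y hy ih =>
      obtain ⟨n, hn⟩ := ih
      rcases hy with rfl | ⟨s, rfl⟩
      · refine ⟨n + e, ?_⟩
        have h1 := st_add e y n 1 (v₀.2 * x)
        rw [mul_one, zpow_one] at h1
        rw [← mul_assoc, h1]
        exact hn
      · refine ⟨n + i s, ?_⟩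
        rw [cmpA_step hA hk hwk s, add_sub_cancel_right, ← mul_assoc, mul_inv_cancel_right]
        exact hn
    | mul_inv_cancel x _ y hy ih =>
      obtain ⟨n, hn⟩ := ih
      rcases hy with rfl | ⟨s, rfl⟩
      · refine ⟨n - e, ?_⟩
        have h1 := st_add e y n (-1) (v₀.2 * x)
        rw [mul_neg_one, zpow_neg_one, ← sub_eq_add_neg] at h1
        rw [← mul_assoc, h1]
        exact hn
      · refine ⟨n - i s, ?_⟩
        rw [← mul_assoc, ← cmpA_step hA hk hwk s]
        exact hn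
  set S0 : F := ∑ v : Fin e × D, if A v then ω v.2 else 0 with hS0
  have hf : ∀ x ∈ H, (∑ v : Fin e × D, if A v then ω (v₀.2 * x * v₀.2⁻¹ * v.2) else 0) = S0 := by
    intro x hx
    obtain ⟨n, hn⟩ := hall x hx
    have h0 : A (tr e w (n - v₀.1) (v₀.2 * x * v₀.2⁻¹) v₀) := by
      show A (stN e w (n - v₀.1 + v₀.1) (v₀.2 * x * v₀.2⁻¹ * v₀.2))
      rw [sub_add_cancel, inv_mul_cancel_right]
      exact hn
    have h1 := tr_cmpA hA hk hwk _ _ h0
    rw [hS0, ← Equiv.sum_comp (trE e w (n - v₀.1) (v₀.2 * x * v₀.2⁻¹)) (fun v => if A v then ω v.2 else 0)]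
    refine Finset.sum_congr rfl fun v _ => ?_
    have h2 : A (trE e w (n - v₀.1) (v₀.2 * x * v₀.2⁻¹) v) ↔ A v := h1 v
    have h3 : ω ((trE e w (n - v₀.1) (v₀.2 * x * v₀.2⁻¹) v).2) = ω (v₀.2 * x * v₀.2⁻¹ * v.2) := by
      show ω (v₀.2 * x * v₀.2⁻¹ * v.2 * w ^ (-((n - v₀.1 + v.1) / (e : ℤ)))) = _
      exact hωz _ _
    by_cases h : A v
    · rw [if_pos h, if_pos (h2.2 h), h3]
    · rw [if_neg h, if_neg (fun h' => h (h2.1 h'))]
  set W : F := ∑ d, if v₀.2⁻¹ * d ∈ H then ω d else 0 with hW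
  have hin : ∀ v, A v → (∑ x : D, if x ∈ H then ω (v₀.2 * x * v₀.2⁻¹ * v.2) else 0) = W := by
    intro v hv
    have hu := hmem v hv
    rw [hW, ← Equiv.sum_comp ((Equiv.mulLeft v₀.2).trans (Equiv.mulRight (v₀.2⁻¹ * v.2)))
      (fun d => if v₀.2⁻¹ * d ∈ H then ω d else 0)]
    refine Finset.sum_congr rfl fun x _ => ?_
    have h1 : ((Equiv.mulLeft v₀.2).trans (Equiv.mulRight (v₀.2⁻¹ * v.2))) x =
        v₀.2 * x * v₀.2⁻¹ * v.2 := by
      show v₀.2 * x * (v₀.2⁻¹ * v.2) = _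
      rw [mul_assoc (v₀.2 * x)]
    rw [h1]
    have h2 : v₀.2⁻¹ * (v₀.2 * x * v₀.2⁻¹ * v.2) = x * (v₀.2⁻¹ * v.2) := by group
    rw [h2]
    by_cases h : x ∈ H
    · rw [if_pos h, if_pos (H.mul_mem h hu)]
    · rw [if_neg h, if_neg (fun h' => h ((H.mul_mem_cancel_right hu).1 h'))]
  have hcard : ((Finset.univ.filter (· ∈ H)).card : F) * S0 = ((Finset.univ.filter A).card : F) * W := by
    calc ((Finset.univ.filter (· ∈ H)).card : F) * S0
        = ∑ x ∈ Finset.univ.filter (· ∈ H), S0 := by rw [Finset.sum_const, nsmul_eq_mul]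
      _ = ∑ x : D, if x ∈ H then S0 else 0 := by rw [Finset.sum_filter]
      _ = ∑ x : D, ∑ v : Fin e × D, if A v then (if x ∈ H then ω (v₀.2 * x * v₀.2⁻¹ * v.2) else 0) else 0 := by
          refine Finset.sum_congr rfl fun x _ => ?_
          by_cases h : x ∈ H
          · simp only [if_pos h]
            exact (hf x h).symm
          · simp only [if_neg h, ite_self, Finset.sum_const_zero]
      _ = ∑ v : Fin e × D, ∑ x : D, if A v then (if x ∈ H then ω (v₀.2 * x * v₀.2⁻¹ * v.2) else 0) else 0 :=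
          Finset.sum_comm
      _ = ∑ v : Fin e × D, if A v then W else 0 := by
          refine Finset.sum_congr rfl fun v _ => ?_
          by_cases h : A v
          · simp only [if_pos h]
            exact hin v h
          · simp only [if_neg h, Finset.sum_const_zero]
      _ = _ := by rw [← Finset.sum_filter, Finset.sum_const, nsmul_eq_mul]
  intro h0
  rw [h0, mul_zero] at hcard
  rcases mul_eq_zero.1 hcard.symm with h | h
  · refine hn _ ?_ ?_ h
    · exact Finset.card_pos.2 ⟨v₀, by simp [hself]⟩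
    · have h1 : (Finset.univ.filter A).card ≤ Fintype.card (Fin e × D) := Finset.card_le_univ _
      have h2 : Fintype.card D ≤ k := by
        rw [← Nat.card_eq_fintype_card]
        exact Nat.le_of_dvd hk hD
      rw [Fintype.card_prod, Fintype.card_fin] at h1
      exact h1.trans (Nat.mul_le_mul_left _ h2)
  · exact hsum h

end Pool.Agent.Lib.MP_688fd0_co.SQ5.H30
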